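import Pool.Agent.L0h77.BW.Stm2
import Pool.Agent.L0h77.BW.T_ENU
import Pool.Agent.L0h77.BW.T_HART
import Pool.Agent.L0h28.BW.T_FR

/-! BW/CON: construction of a basis with flat coefficients -/

set_option autoImplicit false
open MeasureTheory Filter Topology Complex
open scoped ContDiff

namespace Pool.Agent.L0h77.BW.CONw

open Pool.Agent.L0h56.BQ Pool.Agent.L0h77.BW

noncomputable section

/-- the pairs of positive integers with `a² + b² = e` -/
def Se (e : ℕ) : Finset (ℕ × ℕ) := (Finset.range (e + 1) ×ˢ Finset.range (e + 1)).filter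
  fun p : ℕ × ℕ => 0 < p.1 ∧ 0 < p.2 ∧ p.1 ^ 2 + p.2 ^ 2 = e

theorem mem_Se {e : ℕ} {p : ℕ × ℕ} : p ∈ Se e ↔ 0 < p.1 ∧ 0 < p.2 ∧ p.1 ^ 2 + p.2 ^ 2 = e := by
  unfold Se
  rw [Finset.mem_filter, Finset.mem_product, Finset.mem_range, Finset.mem_range]
  exact ⟨fun h => h.2, fun h => ⟨le_of_sq h.2.2, h⟩⟩

theorem card_Se (e : ℕ) : (Se e).card = dirM e := rfl

/-- the absolute values -/
def ab (ν : GI) : ℕ × ℕ := (ν.re.natAbs, ν.im.natAbs)

theorem ab_mem {e : ℕ} {ν : GI} (h : ν ∈ W' e) : ab ν ∈ Se e := by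
  unfold W' at h
  rw [Finset.mem_filter, mem_V, norm_eq] at h
  rw [mem_Se]
  refine ⟨Int.natAbs_pos.2 h.2.1, Int.natAbs_pos.2 h.2.2, ?_⟩
  have h1 : ((ν.re.natAbs ^ 2 + ν.im.natAbs ^ 2 : ℕ) : ℤ) = (e : ℤ) := by
    push_cast
    rw [sq_abs, sq_abs]
    exact h.1
  exact_mod_cast h1

theorem sum4 {M : Type*} [AddCommMonoid M] (e : ℕ) (F : GI → M) : ∑ ν ∈ W' e, F ν = ∑ p ∈ Se e,
    (F ⟨p.1, p.2⟩ + (F ⟨-p.1, -p.2⟩ + (F ⟨p.1, -p.2⟩ + F ⟨-p.1, p.2⟩))) := by
  classical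
  rw [← Finset.sum_fiberwise_of_maps_to (s := W' e) (t := Se e) (g := ab) (fun ν h => ab_mem h)]
  refine Finset.sum_congr rfl fun p hp => ?_
  have hp' := mem_Se.1 hp
  have hset : (W' e).filter (fun ν => ab ν = p) =
      {⟨p.1, p.2⟩, ⟨-p.1, -p.2⟩, ⟨p.1, -p.2⟩, ⟨-p.1, p.2⟩} := by
    ext ν
    simp only [Finset.mem_filter, Finset.mem_insert, Finset.mem_singleton]
    constructor
    · rintro ⟨-, h⟩
      unfold ab at h
      have h1 : ν.re.natAbs = p.1 := by rw [← h]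
      have h2 : ν.im.natAbs = p.2 := by rw [← h]
      rcases Int.natAbs_eq_iff.1 h1 with h3 | h3 <;> rcases Int.natAbs_eq_iff.1 h2 with h4 | h4
      · left; exact Zsqrtd.ext h3 h4
      · right; right; left; exact Zsqrtd.ext h3 h4
      · right; right; right; exact Zsqrtd.ext h3 h4
      · right; left; exact Zsqrtd.ext h3 h4
    · intro h
      have h5 : ((p.1 : ℤ)) ^ 2 + (p.2 : ℤ) ^ 2 = e := by exact_mod_cast hp'.2.2
      have h6 : (p.1 : ℤ) ≠ 0 := by exact_mod_cast hp'.1.ne'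
      have h7 : (p.2 : ℤ) ≠ 0 := by exact_mod_cast hp'.2.1.ne'
      unfold W' ab
      rw [Finset.mem_filter, mem_V, norm_eq]
      rcases h with rfl | rfl | rfl | rfl
      · simp only [ne_eq, h6, h7, not_false_eq_true, and_self, Int.natAbs_natCast, and_true]
        exact h5
      · simp only [ne_eq, h6, h7, not_false_eq_true, and_self, Int.natAbs_natCast, and_true,
          neg_eq_zero, neg_sq, Int.natAbs_neg]
        exact h5
      · simp only [ne_eq, h6, h7, not_false_eq_true, and_self, Int.natAbs_natCast, and_true,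
          neg_eq_zero, neg_sq, Int.natAbs_neg]
        exact h5
      · simp only [ne_eq, h6, h7, not_false_eq_true, and_self, Int.natAbs_natCast, and_true,
          neg_eq_zero, neg_sq, Int.natAbs_neg]
        exact h5
  have hne : ∀ a b c d : ℤ, (a ≠ c ∨ b ≠ d) → (⟨a, b⟩ : GI) ≠ ⟨c, d⟩ := by
    intro a b c d h h'
    rcases h with h | h
    · exact h (congrArg Zsqrtd.re h')
    · exact h (congrArg Zsqrtd.im h')
  have k1 : (0 : ℤ) < p.1 := by exact_mod_cast hp'.1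
  have k2 : (0 : ℤ) < p.2 := by exact_mod_cast hp'.2.1
  rw [hset, Finset.sum_insert, Finset.sum_insert, Finset.sum_insert, Finset.sum_singleton]
  · rw [Finset.mem_singleton]
    exact hne _ _ _ _ (Or.inl (by omega))
  · rw [Finset.mem_insert, Finset.mem_singleton, not_or]
    exact ⟨hne _ _ _ _ (Or.inl (by omega)), hne _ _ _ _ (Or.inr (by omega))⟩
  · rw [Finset.mem_insert, Finset.mem_insert, Finset.mem_singleton, not_or, not_or]
    exact ⟨hne _ _ _ _ (Or.inl (by omega)), hne _ _ _ _ (Or.inr (by omega)),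
      hne _ _ _ _ (Or.inl (by omega))⟩

/-- the real part of an even power of the direction -/
def G (e q : ℕ) (ν : GI) : ℝ := ((uE e ν) ^ (2 * q)).re

theorem G_neg (e q : ℕ) (ν : GI) : G e q (-ν) = G e q ν := by
  unfold G
  rw [uE_neg, Even.neg_pow (even_two_mul q)]

theorem G_star (e q : ℕ) (ν : GI) : G e q (star ν) = G e q ν := by
  unfold G
  rw [uE_star, ← map_pow, Complex.conj_re]

theorem G_four (e q : ℕ) (a b : ℤ) : G e q ⟨-a, -b⟩ = G e q ⟨a, b⟩ ∧ G e q ⟨a, -b⟩ = G e q ⟨a, b⟩ ∧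
    G e q ⟨-a, b⟩ = G e q ⟨a, b⟩ := by
  have h1 : (⟨-a, -b⟩ : GI) = -⟨a, b⟩ := rfl
  have h2 : (⟨a, -b⟩ : GI) = star ⟨a, b⟩ := rfl
  have h3 : (⟨-a, b⟩ : GI) = -star ⟨a, b⟩ := by
    apply Zsqrtd.ext <;> simp
  rw [h1, h2, h3, G_neg, G_neg, G_star]
  exact ⟨rfl, rfl, rfl⟩

theorem card_W' (e : ℕ) : (W' e).card = 4 * dirM e := by
  rw [Finset.card_eq_sum_ones, sum4]
  rw [Finset.sum_const, card_Se, smul_eq_mul]
  ring

theorem avg_eq (e q : ℕ) : avg e q = (∑ p ∈ Se e, G e q ⟨p.1, p.2⟩) / dirM e := by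
  have h1 : ∑ ν ∈ W' e, ((uE e ν) ^ (2 * q)).re = 4 * ∑ p ∈ Se e, G e q ⟨p.1, p.2⟩ := by
    show ∑ ν ∈ W' e, G e q ν = _
    rw [sum4, Finset.mul_sum]
    refine Finset.sum_congr rfl fun p _ => ?_
    obtain ⟨h1, h2, h3⟩ := G_four e q p.1 p.2
    rw [h1, h2, h3]
    ring
  unfold avg
  rw [h1, card_W']
  push_cast
  rw [mul_div_mul_left _ _ (by norm_num)]

/-- the coefficients on the lattice points -/
def bb (h : ℕ × ℕ → ℝ) (ν : GI) : ℝ := -((ν.re.sign * ν.im.sign : ℤ) : ℝ) * h (ab ν) / 2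

/-- the function -/
def uu (e : ℕ) (h : ℕ × ℕ → ℝ) (z : ℂ) : ℝ := ∑ p ∈ Se e, 2 * h p * sinw p.1 p.2 z

theorem bb_axis (h : ℕ × ℕ → ℝ) (ν : GI) (hν : ¬ (ν.re ≠ 0 ∧ ν.im ≠ 0)) : bb h ν = 0 := by
  have h1 : ν.re = 0 ∨ ν.im = 0 := by
    by_contra hcon
    push Not at hcon
    exact hν hcon
  unfold bb
  rcases h1 with h1 | h1 <;> simp [h1]

theorem bb_four (h : ℕ × ℕ → ℝ) (p : ℕ × ℕ) (h1 : 0 < p.1) (h2 : 0 < p.2) :
    bb h ⟨p.1, p.2⟩ = -h p / 2 ∧ bb h ⟨-p.1, -p.2⟩ = -h p / 2 ∧ bb h ⟨p.1, -p.2⟩ = h p / 2 ∧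
      bb h ⟨-p.1, p.2⟩ = h p / 2 := by
  have k1 : (0 : ℤ) < p.1 := by exact_mod_cast h1
  have k2 : (0 : ℤ) < p.2 := by exact_mod_cast h2
  have s1 := Int.sign_eq_one_of_pos k1
  have s2 := Int.sign_eq_one_of_pos k2
  unfold bb ab
  simp only [Int.sign_neg, s1, s2, Int.natAbs_neg, Int.natAbs_natCast]
  refine ⟨?_, ?_, ?_, ?_⟩ <;> push_cast <;> ring

theorem sum_V (e : ℕ) {M : Type*} [AddCommMonoid M] (F : GI → M)
    (hF : ∀ ν : GI, ¬ (ν.re ≠ 0 ∧ ν.im ≠ 0) → F ν = 0) :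
    ∑ ν ∈ V e, F ν = ∑ ν ∈ W' e, F ν := by
  classical
  unfold W'
  rw [Finset.sum_filter]
  refine Finset.sum_congr rfl fun ν _ => ?_
  split_ifs with h
  · rfl
  · exact hF ν h

theorem bb_rep (e : ℕ) (h : ℕ × ℕ → ℝ) : Rep (-1) e (bb h) (uu e h) where
  neg := fun ν => by
    unfold bb ab
    simp
  st := fun ν => by
    unfold bb ab
    simp
    ring
  eq := fun z => by
    rw [sum_V e _ (fun ν hν => by rw [bb_axis h ν hν]; simp), sum4]
    unfold uu
    push_cast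
    refine Finset.sum_congr rfl fun p hp => ?_
    have hp' := mem_Se.1 hp
    obtain ⟨h1, h2, h3, h4⟩ := bb_four h p hp'.1 hp'.2.1
    rw [h1, h2, h3, h4]
    have h5 := ww_ch (-1) p z
    have h6 := congrFun (ww_sin p.1 p.2) z
    rw [h6]
    rw [show ((p.1, p.2) : ℕ × ℕ) = p from rfl, h5]
    push_cast
    ring

theorem bb_sum (e : ℕ) (h : ℕ × ℕ → ℝ) (q : ℕ) : ∑ ν ∈ V e, bb h ν ^ 2 * G e q ν =
    ∑ p ∈ Se e, h p ^ 2 * G e q ⟨p.1, p.2⟩ := by
  rw [sum_V e _ (fun ν hν => by rw [bb_axis h ν hν]; simp), sum4]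
  refine Finset.sum_congr rfl fun p hp => ?_
  have hp' := mem_Se.1 hp
  obtain ⟨h1, h2, h3, h4⟩ := bb_four h p hp'.1 hp'.2.1
  obtain ⟨g1, g2, g3⟩ := G_four e q p.1 p.2
  rw [h1, h2, h3, h4, g1, g2, g3]
  ring

theorem bb_one (e : ℕ) (h : ℕ × ℕ → ℝ) : ∑ ν ∈ V e, bb h ν ^ 2 = ∑ p ∈ Se e, h p ^ 2 := by
  rw [sum_V e _ (fun ν hν => by rw [bb_axis h ν hν]; simp), sum4]
  refine Finset.sum_congr rfl fun p hp => ?_
  have hp' := mem_Se.1 hp
  obtain ⟨h1, h2, h3, h4⟩ := bb_four h p hp'.1 hp'.2.1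
  rw [h1, h2, h3, h4]
  ring

/-! ### Orthogonality -/

theorem int_cos (k : ℤ) : ∫ x in (0:ℝ)..1, Real.cos (Real.pi * k * x) = if k = 0 then 1 else 0 := by
  split_ifs with h
  · subst h
    simp
  · have h1 : Real.pi * (k : ℝ) ≠ 0 := mul_ne_zero Real.pi_ne_zero (by exact_mod_cast h)
    rw [intervalIntegral.integral_comp_mul_left (fun x => Real.cos x) h1, integral_cos]
    have h2 : Real.sin (Real.pi * k * 1) = 0 := by
      rw [mul_one, mul_comm]
      exact Real.sin_int_mul_pi k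
    rw [h2]
    simp

theorem int_sin (a c : ℕ) (ha : 0 < a) (hc : 0 < c) :
    ∫ x in (0:ℝ)..1, Real.sin (Real.pi * a * x) * Real.sin (Real.pi * c * x) =
      if a = c then 1 / 2 else 0 := by
  have h1 : ∀ x : ℝ, Real.sin (Real.pi * a * x) * Real.sin (Real.pi * c * x) =
      1 / 2 * Real.cos (Real.pi * ((a : ℤ) - (c : ℤ) : ℤ) * x) -
        1 / 2 * Real.cos (Real.pi * ((a : ℤ) + (c : ℤ) : ℤ) * x) := by
    intro x
    have e1 : Real.pi * (((a : ℤ) - (c : ℤ) : ℤ) : ℝ) * x = Real.pi * a * x - Real.pi * c * x := by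
      push_cast
      ring
    have e2 : Real.pi * (((a : ℤ) + (c : ℤ) : ℤ) : ℝ) * x = Real.pi * a * x + Real.pi * c * x := by
      push_cast
      ring
    rw [e1, e2, Real.cos_add, Real.cos_sub]
    ring
  simp_rw [h1]
  have hcont : ∀ k : ℤ, Continuous fun x : ℝ => 1 / 2 * Real.cos (Real.pi * k * x) := fun k => by
    fun_prop
  rw [intervalIntegral.integral_sub ((hcont _).intervalIntegrable _ _)
    ((hcont _).intervalIntegrable _ _), intervalIntegral.integral_const_mul,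
    intervalIntegral.integral_const_mul, int_cos, int_cos]
  by_cases h : a = c
  · subst h
    rw [if_pos (by ring), if_neg (by omega), if_pos rfl]
    ring
  · rw [if_neg (by omega), if_neg (by omega), if_neg h]
    ring

theorem int_Sq (f g : ℝ → ℝ) :
    ∫ z in Sq, f z.re * g z.im = (∫ x in (0:ℝ)..1, f x) * ∫ x in (0:ℝ)..1, g x := by
  have h1 := (Complex.volume_preserving_equiv_real_prod.symm).setIntegral_preimage_emb
    (MeasurableEquiv.measurableEmbedding _) (fun z : ℂ => f z.re * g z.im) Sq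
  have hpre : Complex.measurableEquivRealProd.symm ⁻¹' Sq =
      Set.Ioo (0:ℝ) 1 ×ˢ Set.Ioo (0:ℝ) 1 := by
    ext p
    simp [Sq, Q, Complex.mem_reProdIm]
  rw [hpre, Measure.volume_eq_prod] at h1
  rw [← h1, intervalIntegral.integral_of_le zero_le_one, intervalIntegral.integral_of_le
    zero_le_one, integral_Ioc_eq_integral_Ioo, integral_Ioc_eq_integral_Ioo,
    ← setIntegral_prod_mul]
  rfl

theorem int_sinw (p q : ℕ × ℕ) (h1 : 0 < p.1) (h2 : 0 < p.2) (h3 : 0 < q.1) (h4 : 0 < q.2) :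
    ∫ z in Sq, sinw p.1 p.2 z * sinw q.1 q.2 z = if p = q then 1 / 4 else 0 := by
  have e1 : ∀ z : ℂ, sinw p.1 p.2 z * sinw q.1 q.2 z =
      (fun x => Real.sin (Real.pi * p.1 * x) * Real.sin (Real.pi * q.1 * x)) z.re *
      (fun x => Real.sin (Real.pi * p.2 * x) * Real.sin (Real.pi * q.2 * x)) z.im := by
    intro z
    unfold sinw
    ring
  simp_rw [e1]
  rw [int_Sq (fun x => Real.sin (Real.pi * p.1 * x) * Real.sin (Real.pi * q.1 * x))
    (fun x => Real.sin (Real.pi * p.2 * x) * Real.sin (Real.pi * q.2 * x)),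
    int_sin _ _ h1 h3, int_sin _ _ h2 h4]
  by_cases h : p = q
  · rw [if_pos h, if_pos (by rw [h]), if_pos (by rw [h])]
    norm_num
  · rw [if_neg h]
    by_cases h' : p.1 = q.1
    · rw [if_neg (fun h'' => h (Prod.ext h' h'')), mul_zero]
    · rw [if_neg h', zero_mul]

theorem sinw_cont (a b : ℕ) : Continuous (sinw a b) := by
  unfold sinw
  fun_prop

theorem Sq_int {f : ℂ → ℝ} (hf : Continuous f) : IntegrableOn f Sq := by
  have h1 : Sq ⊆ Metric.closedBall (0 : ℂ) 2 := by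
    intro z hz
    have hz' : z.re ∈ Set.Ioo (0:ℝ) 1 ∧ z.im ∈ Set.Ioo (0:ℝ) 1 := by
      simpa [Sq, Q, Complex.mem_reProdIm] using hz
    rw [Metric.mem_closedBall, dist_zero_right]
    refine (Complex.norm_le_abs_re_add_abs_im z).trans ?_
    rw [abs_of_pos hz'.1.1, abs_of_pos hz'.2.1]
    linarith [hz'.1.2, hz'.2.2]
  exact (hf.continuousOn.integrableOn_compact (isCompact_closedBall _ _)).mono_set h1

theorem uu_int (e e' : ℕ) (h h' : ℕ × ℕ → ℝ) : ∫ z in Sq, uu e h z * uu e' h' z =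
    ∑ p ∈ Se e, ∑ q ∈ Se e', if p = q then h p * h' q else 0 := by
  have h1 : ∀ z, uu e h z * uu e' h' z = ∑ p ∈ Se e, ∑ q ∈ Se e',
      4 * (h p * h' q) * (sinw p.1 p.2 z * sinw q.1 q.2 z) := by
    intro z
    unfold uu
    rw [Finset.sum_mul_sum]
    refine Finset.sum_congr rfl fun p _ => Finset.sum_congr rfl fun q _ => ?_
    ring
  simp_rw [h1]
  have hc : ∀ p q : ℕ × ℕ, Continuous fun z => 4 * (h p * h' q) *
      (sinw p.1 p.2 z * sinw q.1 q.2 z) := fun p q =>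
    continuous_const.mul ((sinw_cont _ _).mul (sinw_cont _ _))
  rw [integral_finsetSum _ fun p _ => Sq_int (continuous_finsetSum _ fun q _ => hc p q)]
  refine Finset.sum_congr rfl fun p hp => ?_
  rw [integral_finsetSum _ fun q _ => Sq_int (hc p q)]
  refine Finset.sum_congr rfl fun q hq => ?_
  have hp' := mem_Se.1 hp
  have hq' := mem_Se.1 hq
  rw [integral_const_mul, int_sinw p q hp'.1 hp'.2.1 hq'.1 hq'.2.1]
  split_ifs
  · ring
  · ring

theorem uu_mem (e : ℕ) (h : ℕ × ℕ → ℝ) : uu e h ∈ DirE e := by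
  have h1 : uu e h = ∑ p ∈ Se e, (2 * h p) • sinw p.1 p.2 := by
    funext z
    unfold uu
    rw [Finset.sum_apply]
    rfl
  rw [h1]
  refine Submodule.sum_mem _ fun p hp => Submodule.smul_mem _ _ (Submodule.subset_span ?_)
  exact ⟨p.1, p.2, (mem_Se.1 hp).2.2, rfl⟩

/-! ### The matrices -/

theorem mats (e : ℕ) : ∃ H : ℕ → ℕ × ℕ → ℝ,
    (∀ i i', i < dirM e → i' < dirM e → ∑ p ∈ Se e, H i p * H i' p = if i = i' then 1 else 0) ∧
    ∀ f : ℕ × ℕ → ℝ, (∀ p ∈ Se e, |f p| ≤ 1) →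
      ∑ i ∈ Finset.range (dirM e),
        (∑ p ∈ Se e, H i p ^ 2 * f p - (∑ p ∈ Se e, f p) / dirM e) ^ 2 ≤ 2 := by
  classical
  rcases Nat.eq_zero_or_pos (dirM e) with h0 | h0
  · refine ⟨fun _ _ => 0, fun i i' hi => ?_, fun f _ => ?_⟩
    · omega
    · rw [h0]
      simp
  · obtain ⟨H, hH, hf⟩ := HART (dirM e) h0
    set φ : Se e ≃ Fin (dirM e) := Finset.equivFinOfCardEq (card_Se e) with hφ
    refine ⟨fun i p => if h : i < dirM e ∧ p ∈ Se e then H ⟨i, h.1⟩ (φ ⟨p, h.2⟩) else 0,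
      fun i i' hi hi' => ?_, fun f hf1 => ?_⟩
    · rw [← Finset.sum_coe_sort]
      have e1 : ∀ p : Se e, (if h : i < dirM e ∧ (p : ℕ × ℕ) ∈ Se e then
          H ⟨i, h.1⟩ (φ ⟨p, h.2⟩) else 0) * (if h : i' < dirM e ∧ (p : ℕ × ℕ) ∈ Se e then
          H ⟨i', h.1⟩ (φ ⟨p, h.2⟩) else 0) = (fun k => H ⟨i, hi⟩ k * H ⟨i', hi'⟩ k) (φ p) := by
        intro p
        rw [dif_pos ⟨hi, p.2⟩, dif_pos ⟨hi', p.2⟩]
      rw [Finset.sum_congr rfl fun p _ => e1 p,
        Equiv.sum_comp φ (fun k => H ⟨i, hi⟩ k * H ⟨i', hi'⟩ k)]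
      have h3 := congrFun (congrFun hH ⟨i, hi⟩) ⟨i', hi'⟩
      rw [Matrix.mul_apply, Matrix.one_apply] at h3
      simp only [Matrix.transpose_apply, Fin.mk.injEq] at h3
      exact h3
    · have h4 := hf (fun k => f (φ.symm k)) (fun k => hf1 _ (φ.symm k).2)
      have e2 : (∑ k, f (φ.symm k)) = ∑ p ∈ Se e, f p := by
        rw [← Finset.sum_coe_sort (Se e), ← Equiv.sum_comp φ.symm (fun p : Se e => f p)]
      have e3 : ∀ j : Fin (dirM e), ∑ k, H j k ^ 2 * f (φ.symm k) = ∑ p ∈ Se e,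
          (if h : (j : ℕ) < dirM e ∧ p ∈ Se e then H ⟨j, h.1⟩ (φ ⟨p, h.2⟩) else 0) ^ 2 * f p := by
        intro j
        rw [← Finset.sum_coe_sort (Se e), ← Equiv.sum_comp φ]
        refine Finset.sum_congr rfl fun p _ => ?_
        rw [dif_pos ⟨j.2, p.2⟩, Equiv.symm_apply_apply]
      simp_rw [e2, e3] at h4
      rw [Fin.sum_univ_eq_sum_range (fun i => (∑ p ∈ Se e, (if h : i < dirM e ∧ p ∈ Se e then
        H ⟨i, h.1⟩ (φ ⟨p, h.2⟩) else 0) ^ 2 * f p - (∑ p ∈ Se e, f p) / dirM e) ^ 2)] at h4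
      exact h4

theorem unb (N : ℕ) : ∃ e, N ≤ e ∧ 0 < dirM e := by
  refine ⟨(N + 1) ^ 2 + (N + 1) ^ 2, ?_, ?_⟩
  · nlinarith
  · rw [← card_Se, Finset.card_pos]
    exact ⟨(N + 1, N + 1), mem_Se.2 ⟨Nat.succ_pos _, Nat.succ_pos _, rfl⟩⟩

theorem CON : S_CON := by
  classical
  obtain ⟨E, j, hmono, htop, hlt, huniq⟩ := ENU dirM unb
  choose H hH1 hH2 using mats
  have hpos : ∀ n, 0 < E n := by
    intro n
    rcases Nat.eq_zero_or_pos (E n) with h | h
    · exfalso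
      have h1 := hlt n
      rw [h, ← card_Se] at h1
      obtain ⟨p, hp⟩ := Finset.card_pos.1 (lt_of_le_of_lt (Nat.zero_le _) h1)
      have h2 := mem_Se.1 hp
      have h3 := h2.2.2
      have h4 : 0 < p.1 ^ 2 := pow_pos h2.1 2
      omega
    · exact h
  have hinj : ∀ m n, E m = E n → j m = j n → m = n := by
    intro m n h1 h2
    obtain ⟨k, -, hk⟩ := huniq (E n) (j n) (hlt n)
    rw [hk m ⟨h1, h2⟩, hk n ⟨rfl, rfl⟩]
  refine ⟨E, fun n => uu (E n) (H (E n) (j n)), fun n => bb (H (E n) (j n)), ?_, hpos,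
    fun n => bb_rep _ _, fun n => ?_, fun q e F hF => ?_⟩
  · refine ⟨hmono, htop, fun n => uu_mem _ _, fun m n => ?_, fun e => ?_⟩
    · rw [uu_int]
      by_cases hE : E m = E n
      · have h1 : ∑ p ∈ Se (E m), ∑ q ∈ Se (E n), (if p = q then H (E m) (j m) p *
            H (E n) (j n) q else 0) = ∑ p ∈ Se (E n), H (E n) (j m) p * H (E n) (j n) p := by
          rw [hE]
          refine Finset.sum_congr rfl fun p hp => ?_
          rw [Finset.sum_ite_eq, if_pos hp]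
        rw [h1, hH1 _ _ _ (by rw [← hE]; exact hlt m) (hlt n)]
        by_cases hmn : m = n
        · rw [if_pos hmn, if_pos (by rw [hmn])]
        · rw [if_neg hmn, if_neg (fun h => hmn (hinj m n hE h))]
      · rw [if_neg (fun h => hE (by rw [h]))]
        refine Finset.sum_eq_zero fun p hp => Finset.sum_eq_zero fun q hq => ?_
        rw [if_neg]
        rintro rfl
        apply hE
        rw [← (mem_Se.1 hp).2.2, ← (mem_Se.1 hq).2.2]
    · rw [(FR e).1]
      have h1 : {n | E n = e}.ncard = (Set.Iio (dirM e)).ncard := by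
        refine Set.ncard_congr (fun n _ => j n) ?_ ?_ ?_
        · intro n hn
          rw [← (show E n = e from hn)]
          exact hlt n
        · intro m n hm hn h
          exact hinj m n ((show E m = e from hm).trans (show E n = e from hn).symm) h
        · intro i hi
          obtain ⟨n, ⟨hn1, hn2⟩, -⟩ := huniq e i hi
          exact ⟨n, hn1, hn2⟩
      rw [h1, Set.ncard_eq_toFinset_card']
      simp
  · rw [bb_one]
    have h1 := hH1 (E n) (j n) (j n) (hlt n) (hlt n)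
    rw [if_pos rfl] at h1
    rw [← h1]
    exact Finset.sum_congr rfl fun p _ => by ring
  · rcases Nat.eq_zero_or_pos e with he | he
    · have h1 : F = ∅ := by
        refine Finset.eq_empty_of_forall_notMem fun n hn => ?_
        have := hpos n
        rw [hF n hn, he] at this
        omega
      rw [h1]
      simp
    · have h1 := hH2 e (fun p => G e q ⟨p.1, p.2⟩) (by
        intro p hp
        have hp' := mem_Se.1 hp
        have h2 : (⟨p.1, p.2⟩ : GI) ∈ V e := by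
          rw [mem_V, norm_eq]
          show (p.1 : ℤ) ^ 2 + (p.2 : ℤ) ^ 2 = e
          exact_mod_cast hp'.2.2
        unfold G
        refine (Complex.abs_re_le_norm _).trans ?_
        rw [norm_pow, uE_norm e he _ h2, one_pow])
      rw [← avg_eq] at h1
      refine le_trans ?_ h1
      have h2 : ∀ n ∈ F, (∑ ν ∈ V e, bb (H (E n) (j n)) ν ^ 2 * ((uE e ν) ^ (2 * q)).re -
          avg e q) ^ 2 = (fun i => (∑ p ∈ Se e, H e i p ^ 2 * G e q ⟨p.1, p.2⟩ - avg e q) ^ 2)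
            (j n) := by
        intro n hn
        have h3 := bb_sum e (H e (j n)) q
        unfold G at h3 ⊢
        rw [hF n hn, h3]
      rw [Finset.sum_congr rfl h2, ← Finset.sum_image (s := F) (g := j)
        (f := fun i => (∑ p ∈ Se e, H e i p ^ 2 * G e q ⟨p.1, p.2⟩ - avg e q) ^ 2)
        (fun m hm n hn h => hinj m n ((hF m hm).trans (hF n hn).symm) h)]
      refine Finset.sum_le_sum_of_subset_of_nonneg ?_ fun _ _ _ => sq_nonneg _
      intro i hi
      rw [Finset.mem_image] at hi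
      obtain ⟨n, hn, rfl⟩ := hi
      rw [Finset.mem_range, ← hF n hn]
      exact hlt n

end

end Pool.Agent.L0h77.BW.CONw

namespace Pool.Agent.L0h77.BW

theorem CON : S_CON := CONw.CON

end Pool.Agent.L0h77.BW
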